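import Pool.Agent.Mg.F45960e.Ga095cc

section

/-!
The bilinear map of a chain, and rigidity of its group over seven constants.
-/

namespace Pool.Agent.MP_45960e_lc

open Module Grp

theorem exists_cyc (M : Type) [AddCommGroup M] [Module F M] [Module.Finite F M] :
    ∃ C : (F × F × M) →ₗ[F] (F × F × M), C (1, 0, 0) = (0, 1, 0) ∧
      ∀ p : F × F × M → Prop, p (1, 0, 0) → (∀ a b, p a → p b → p (a + b)) →
        (∀ a, p a → p (C a)) → ∀ z, p z := by
  let b := Module.finBasis F M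
  let bb : ℕ → M := fun i => if h : i < finrank F M then b ⟨i, h⟩ else 0
  let sh : M →ₗ[F] M := b.constr F (fun i => bb (i.val + 1))
  let C : (F × F × M) →ₗ[F] (F × F × M) :=
    LinearMap.prod 0 (LinearMap.prod (LinearMap.fst F F (F × M))
      (((LinearMap.fst F F M).smulRight (bb 0) + sh ∘ₗ LinearMap.snd F F M) ∘ₗ
        LinearMap.snd F F (F × M)))
  have hC : ∀ x y z, C (x, y, z) = (0, x, y • bb 0 + sh z) := fun x y z => rfl
  refine ⟨C, by simp [hC], ?_⟩
  intro p h0 hadd hCp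
  have hz : p 0 := by
    rw [← three_eq_zero ((1, 0, 0) : F × F × M)]
    exact hadd _ _ (hadd _ _ h0 h0) h0
  have hsm : ∀ (c : F) x, p x → p (c • x) := by
    intro c x hx
    have hc : ∀ c : F, c = 0 ∨ c = 1 ∨ c = 2 := by decide
    rcases hc c with rfl | rfl | rfl
    · simpa using hz
    · simpa using hx
    · rw [two_smul]; exact hadd _ _ hx hx
  have h1 : p (0, 1, 0) := by simpa [hC] using hCp _ h0
  have h2 : ∀ i, p (0, 0, bb i) := by
    intro i
    induction i with
    | zero => simpa [hC] using hCp _ h1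
    | succ i ih =>
      by_cases hi : i < finrank F M
      · have := hCp _ ih
        rw [hC] at this
        have e : sh (bb i) = bb (i + 1) := by
          have : bb i = b ⟨i, hi⟩ := by simp [bb, hi]
          rw [this]; simp [sh]
        simpa [e] using this
      · have : bb (i + 1) = 0 := by
          simp only [bb]; rw [dif_neg (by omega)]
        rw [this]; exact hz
  have h3 : ∀ z, p (0, 0, z) := by
    intro z
    have hz' : z ∈ Submodule.span F (Set.range b) := by rw [b.span_eq]; trivial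
    induction hz' using Submodule.span_induction with
    | mem x hx =>
      obtain ⟨i, rfl⟩ := hx
      have : b i = bb i.val := by simp [bb]
      rw [this]; exact h2 _
    | zero => exact hz
    | add x y _ _ hx hy => simpa using hadd _ _ hx hy
    | smul c x _ hx => simpa using hsm c _ hx
  rintro ⟨x, y, z⟩
  simpa using hadd _ _ (hadd _ _ (hsm x _ h0) (hsm y _ h1)) (h3 z)

variable {A B S : Type} [AddCommGroup A] [Module F A] [AddCommGroup B] [Module F B] [Fintype S]

variable (A B S) in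
abbrev ZZ := F × F × (A × B × (Option S → F))

variable (A B S) in
abbrev VV := ZZ A B S × (S → Dual F B) × F

abbrev WW (B : Type) (T : Submodule F A) := B × T.dualAnnihilator × F × F

variable (A B S) in
/-- The data of a chain. -/
structure Chain where
  N : S → A →ₗ[F] A
  M : S → B →ₗ[F] B
  T : Submodule F A
  C : ZZ A B S →ₗ[F] ZZ A B S
  hC : C (1, 0, 0) = (0, 1, 0)
  gen : ∀ p : ZZ A B S → Prop, p (1, 0, 0) → (∀ a b, p a → p b → p (a + b)) →
    (∀ a, p a → p (C a)) → ∀ z, p z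
  Hom : ℕ → A → B → Prop
  step : ∀ t a b, Hom t a b → ∀ σ, N σ a = 0 ∨ M σ b = 0 ∨ ∃ t' < t, Hom t' (N σ a) (M σ b)
  pT : A → A
  pT_mem : ∀ a, pT a ∈ T
  pT_hom : ∀ t a b, Hom t a b → pT a = 0 ∨ Hom t (pT a) b
  SA : Set A
  SB : Set B
  spanA : Submodule.span F SA = ⊤
  spanB : Submodule.span F SB = ⊤
  ex : ∀ a ∈ SA, ∀ b ∈ SB, ∃ t, Hom t a b
  b0 : B
  hb0 : b0 ≠ 0

namespace Chain
variable (c : Chain A B S)

def col (δ : A →ₗ[F] B →ₗ[F] F) (v : VV A B S) (w : WW B c.T) : Option S → F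
  | none => ∑ σ, v.2.1 σ (c.M σ w.1) - w.2.1.1 v.1.2.2.1 + δ v.1.2.2.1 w.1
  | some σ => v.2.1 σ w.1 - w.2.1.1 (c.N σ v.1.2.2.1)

def betaF (δ : A →ₗ[F] B →ₗ[F] F) (v : VV A B S) (w : WW B c.T) : ZZ A B S :=
  w.2.2.1 • v.1 + w.2.2.2 • c.C v.1 + (0, 0, (0, v.2.2 • w.1, c.col δ v w))

theorem col_add_left (δ : A →ₗ[F] B →ₗ[F] F) (v v' : VV A B S) (w : WW B c.T) :
    c.col δ (v + v') w = c.col δ v w + c.col δ v' w := by
  funext o
  cases o <;> simp [col, Finset.sum_add_distrib] <;> ring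

theorem col_smul_left (δ : A →ₗ[F] B →ₗ[F] F) (x : F) (v : VV A B S) (w : WW B c.T) :
    c.col δ (x • v) w = x • c.col δ v w := by
  funext o
  cases o <;> simp [col, ← Finset.mul_sum] <;> ring

theorem col_add_right (δ : A →ₗ[F] B →ₗ[F] F) (v : VV A B S) (w w' : WW B c.T) :
    c.col δ v (w + w') = c.col δ v w + c.col δ v w' := by
  funext o
  cases o <;> simp [col, Finset.sum_add_distrib] <;> ring

theorem col_smul_right (δ : A →ₗ[F] B →ₗ[F] F) (x : F) (v : VV A B S) (w : WW B c.T) :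
    c.col δ v (x • w) = x • c.col δ v w := by
  funext o
  cases o <;> simp [col, ← Finset.mul_sum] <;> ring

def beta (δ : A →ₗ[F] B →ₗ[F] F) : VV A B S →ₗ[F] WW B c.T →ₗ[F] ZZ A B S :=
  LinearMap.mk₂ F (c.betaF δ)
    (by
      intro v v' w
      simp only [betaF, col_add_left, Prod.fst_add, Prod.snd_add, map_add, smul_add, add_smul]
      ext <;> simp <;> abel)
    (by
      intro x v w
      simp only [betaF, col_smul_left, Prod.smul_fst, Prod.smul_snd, map_smul, smul_add]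
      ext <;> simp [smul_smul, mul_comm, mul_left_comm])
    (by
      intro v w w'
      simp only [betaF, col_add_right, Prod.fst_add, Prod.snd_add, smul_add, add_smul]
      ext <;> simp <;> abel)
    (by
      intro x v w
      simp only [betaF, col_smul_right, Prod.smul_fst, Prod.smul_snd, smul_add]
      ext <;> simp [smul_smul, mul_comm, mul_left_comm, mul_assoc])

theorem beta_apply (δ : A →ₗ[F] B →ₗ[F] F) (v : VV A B S) (w : WW B c.T) :
    c.beta δ v w = w.2.2.1 • v.1 + w.2.2.2 • c.C v.1 + (0, 0, (0, v.2.2 • w.1, c.col δ v w)) :=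
  rfl

theorem col_zero (δ : A →ₗ[F] B →ₗ[F] F) (v : VV A B S) (y y' : F) :
    c.col δ v (0, 0, y, y') = 0 := by
  funext o
  cases o <;> simp [col]

theorem col_zero' (δ : A →ₗ[F] B →ₗ[F] F) (s t x : F) (w : WW B c.T) :
    c.col δ ((s, t, 0), 0, x) w = 0 := by
  funext o
  cases o <;> simp [col]

theorem beta_e (δ : A →ₗ[F] B →ₗ[F] F) (v : VV A B S) : c.beta δ v (0, 0, 1, 0) = v.1 := by
  simp [beta_apply, col_zero]

theorem beta_e' (δ : A →ₗ[F] B →ₗ[F] F) (v : VV A B S) :
    c.beta δ v (0, 0, 0, 1) = c.C v.1 := by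
  simp [beta_apply, col_zero]

theorem lin_rigid {δ δ' : A →ₗ[F] B →ₗ[F] F} (hδ : ∀ a, δ (c.pT a) = δ a)
    (hδ' : ∀ a, δ' (c.pT a) = δ' a) (RV : VV A B S → VV A B S → Prop)
    (RW : WW B c.T → WW B c.T → Prop)
    (f0 : ∀ w, ∃ w', RW w w')
    (f1 : ∀ w w', RW w w' → ∀ v, ∃ v', RV v v' ∧ c.beta δ v w = c.beta δ' v' w')
    (f2 : ∀ v v', RV v v' → ∀ w, ∃ w', RW w w' ∧ c.beta δ v w = c.beta δ' v' w')
    (cV1 : ∀ v v', RV v v' → c.beta δ v (0, 0, 1, 0) = c.beta δ' v' (0, 0, 1, 0))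
    (cV2 : ∀ v v', RV v v' → c.beta δ v (c.b0, 0, 0, 0) = c.beta δ' v' (c.b0, 0, 0, 0))
    (cW1 : ∀ w w', RW w w' → c.beta δ (0, 0, 1) w = c.beta δ' (0, 0, 1) w')
    (cW2 : ∀ w w', RW w w' → c.beta δ ((1, 0, 0), 0, 0) w = c.beta δ' ((1, 0, 0), 0, 0) w') :
    δ = δ' ∧ (∀ v v', RV v v' → v' = v) ∧ ∀ w w', RW w w' → w' = w := by
  have dV : ∀ v v', RV v v' → v'.1 = v.1 ∧ v'.2.2 = v.2.2 := by
    intro v v' h
    refine ⟨by simpa [beta_e] using (cV1 v v' h).symm, ?_⟩
    have := congrArg (fun z : ZZ A B S => z.2.2.2.1) (cV2 v v' h)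
    simp only [beta_apply, zero_smul, zero_add] at this
    exact (smul_left_injective F c.hb0 this).symm
  have dW : ∀ w w', RW w w' → w'.1 = w.1 ∧ w'.2.2 = w.2.2 := by
    intro w w' h
    have h1 := congrArg (fun z : ZZ A B S => z.2.2.2.1) (cW1 w w' h)
    have h2 := congrArg (fun z : ZZ A B S => z.1) (cW2 w w' h)
    have h3 := congrArg (fun z : ZZ A B S => z.2.1) (cW2 w w' h)
    simp [beta_apply, c.hC] at h1 h2 h3
    exact ⟨h1.symm, Prod.ext h2.symm h3.symm⟩
  have rel : ∀ v v' w w', RV v v' → RW w w' → c.beta δ v w = c.beta δ' v' w' →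
      (∀ σ, (v'.2.1 - v.2.1) σ w.1 = (w'.2.1.1 - w.2.1.1) (c.N σ v.1.2.2.1)) ∧
      (w'.2.1.1 - w.2.1.1) v.1.2.2.1 + (δ - δ') v.1.2.2.1 w.1 =
        ∑ σ, (v'.2.1 - v.2.1) σ (c.M σ w.1) := by
    intro v v' w w' hv hw h
    obtain ⟨e1, e2⟩ := dV v v' hv
    obtain ⟨e3, e4⟩ := dW w w' hw
    rw [beta_apply, beta_apply, e1, e2, e3, e4] at h
    have h' : c.col δ v w = c.col δ' v' w' :=
      congrArg (fun z : ZZ A B S => z.2.2.2.2) (add_left_cancel h)
    constructor
    · intro σ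
      have := congrFun h' (some σ)
      simp only [col, e1, e3] at this
      simp only [Pi.sub_apply, LinearMap.sub_apply]
      linear_combination -this
    · have := congrFun h' none
      simp only [col, e1, e3] at this
      simp only [Pi.sub_apply, LinearMap.sub_apply, Finset.sum_sub_distrib]
      linear_combination this
  have main : ∀ t a b, c.Hom t a b → (δ - δ') a b = 0 ∧
      ∀ w w', RW w w' → w.1 = b → (w'.2.1.1 - w.2.1.1) a = 0 := by
    intro t
    induction t using Nat.strong_induction_on with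
    | _ t ih =>
    have k1 : ∀ a b, c.Hom t a b → ∀ w w', RW w w' → w.1 = b →
        (w'.2.1.1 - w.2.1.1) a + (δ - δ') a b = 0 := by
      intro a b hab w w' hw hb
      obtain ⟨v', hv, h⟩ := f1 w w' hw ((0, 0, (a, 0, 0)), 0, 0)
      have h2 := (rel _ _ _ _ hv hw h).2
      rw [hb] at h2
      refine h2.trans (Finset.sum_eq_zero fun σ _ => ?_)
      obtain ⟨u', hu, h'⟩ := f2 _ _ hv (c.M σ b, 0, 0, 0)
      have h3 := (rel _ _ _ _ hv hu h').1 σ
      rcases c.step t a b hab σ with h0 | h0 | ⟨t', ht', h0⟩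
      · refine h3.trans ?_
        simp [h0]
      · rw [h0]; simp
      · exact h3.trans ((ih t' ht' _ _ h0).2 _ _ hu rfl)
    intro a b hab
    have k2 : (δ - δ') a b = 0 := by
      have e : (δ - δ') a = (δ - δ') (c.pT a) := by simp [hδ, hδ']
      rw [e]
      rcases c.pT_hom t a b hab with h0 | h0
      · rw [h0]; simp
      · obtain ⟨w', hw⟩ := f0 (b, 0, 0, 0)
        have := k1 _ _ h0 _ _ hw rfl
        have h1 := (Submodule.mem_dualAnnihilator _).1 w'.2.1.2 _ (c.pT_mem a)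
        simpa [h1] using this
    refine ⟨k2, fun w w' hw hb => ?_⟩
    have := k1 a b hab w w' hw hb
    rwa [k2, add_zero] at this
  have hΔ : δ - δ' = 0 := by
    refine LinearMap.ext_on c.spanA fun a ha => LinearMap.ext_on c.spanB fun b hb => ?_
    obtain ⟨t, ht⟩ := c.ex a ha b hb
    exact (main t a b ht).1
  have hP : ∀ v v', RV v v' → v'.2.1 - v.2.1 = 0 := by
    intro v v' hv
    funext σ
    refine LinearMap.ext_on c.spanB fun b hb => ?_
    obtain ⟨u', hu, h'⟩ := f2 _ _ hv (b, 0, 0, 0)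
    have h3 := (rel _ _ _ _ hv hu h').1 σ
    have h4 : u'.2.1.1 - ((b, 0, 0, 0) : WW B c.T).2.1.1 = 0 := by
      refine LinearMap.ext_on c.spanA fun a ha => ?_
      obtain ⟨t, ht⟩ := c.ex a ha b hb
      exact (main t a b ht).2 _ _ hu rfl
    rw [h4] at h3
    exact h3
  refine ⟨sub_eq_zero.1 hΔ, fun v v' hv => ?_, fun w w' hw => ?_⟩
  · exact Prod.ext (dV v v' hv).1 (Prod.ext (sub_eq_zero.1 (hP v v' hv)) (dV v v' hv).2)
  · refine Prod.ext (dW w w' hw).1 (Prod.ext (Subtype.ext (sub_eq_zero.1 ?_)) (dW w w' hw).2)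
    ext a
    obtain ⟨v', hv, h⟩ := f1 w w' hw ((0, 0, (a, 0, 0)), 0, 0)
    have h2 := (rel _ _ _ _ hv hw h).2
    rw [hΔ, hP _ _ hv] at h2
    simpa using h2

/-- The group of the chain with twist `δ`. -/
abbrev G (δ : A →ₗ[F] B →ₗ[F] F) : Type :=
  Grp (V := VV A B S) (W := WW B c.T) (Z := ZZ A B S) (c.beta δ)

/-- The seven constants. -/
def cst (δ : A →ₗ[F] B →ₗ[F] F) : Fin 7 → c.G δ :=
  ![tor _ (-1) 1, tor _ 1 (-1), iW _ (0, 0, 1, 0), iW _ (0, 0, 0, 1), iW _ (c.b0, 0, 0, 0),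
    iV _ (0, 0, 1), iV _ ((1, 0, 0), 0, 0)]

theorem grp_rigid {δ δ' : A →ₗ[F] B →ₗ[F] F} (hδ : ∀ a, δ (c.pT a) = δ a)
    (hδ' : ∀ a, δ' (c.pT a) = δ' a) {k : ℕ} (hk : 12 ≤ k)
    (Bf : BF (c.G δ) (c.G δ') k) {cs : List _}
    (hcs : cs = List.ofFn fun i => (c.cst δ i, c.cst δ' i)) (hE : Bf.E cs) :
    δ = δ' ∧ (∀ v v', Bf.E ((iV _ v, iV _ v') :: cs) → v' = v) ∧
      (∀ w w', Bf.E ((iW _ w, iW _ w') :: cs) → w' = w) ∧
      ∀ z z', Bf.E ((iZ _ z, iZ _ z') :: cs) → z' = z := by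
  have hm : ∀ i, (c.cst δ i, c.cst δ' i) ∈ cs := fun i => hcs ▸ List.mem_ofFn.2 ⟨i, rfl⟩
  have hlen : cs.length = 7 := by rw [hcs]; simp
  have m0 : (tor _ (-1) 1, tor _ (-1) 1) ∈ cs := hm 0
  have m1 : (tor _ 1 (-1), tor _ 1 (-1)) ∈ cs := hm 1
  have m2 : (iW _ (0, 0, 1, 0), iW _ (0, 0, 1, 0)) ∈ cs := hm 2
  have m3 : (iW _ (0, 0, 0, 1), iW _ (0, 0, 0, 1)) ∈ cs := hm 3
  have m4 : (iW _ (c.b0, 0, 0, 0), iW _ (c.b0, 0, 0, 0)) ∈ cs := hm 4
  have m5 : (iV _ (0, 0, 1), iV _ (0, 0, 1)) ∈ cs := hm 5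
  have m6 : (iV _ ((1, 0, 0), 0, 0), iV _ ((1, 0, 0), 0, 0)) ∈ cs := hm 6
  have hZ := Bf.fixZ (by omega) m0 m1 Prod.fst c.C m2 m3 m6 Prod.fst_surjective
    (c.beta_e δ) (c.beta_e δ') (c.beta_e' δ) (c.beta_e' δ') c.gen
  have hβ : ∀ l, Bf.E l → l.length ≤ 10 → (∀ x ∈ cs, x ∈ l) → ∀ v v' w w',
      (iV _ v, iV _ v') ∈ l → (iW _ w, iW _ w') ∈ l → c.beta δ v w = c.beta δ' v' w' := by
    intro l hl hl' hs v v' w w' h1 h2
    exact (hZ _ _ (Bf.sub (Bf.beta hl (by omega) h1 h2) (by simp +contextual [hs]))).symm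
  obtain ⟨h1, h2, h3⟩ := c.lin_rigid hδ hδ' (fun v v' => Bf.E ((iV _ v, iV _ v') :: cs))
    (fun w w' => Bf.E ((iW _ w, iW _ w') :: cs)) (fun w => Bf.forthW hE (by omega) m0 w)
    (by
      intro w w' hw v
      obtain ⟨v', h⟩ := Bf.forthV hw (by simp; omega) (by simp [m1]) v
      exact ⟨v', Bf.sub h (by simp +contextual),
        hβ _ h (by simp; omega) (by simp +contextual) _ _ _ _ (by simp) (by simp)⟩)
    (by
      intro v v' hv w
      obtain ⟨w', h⟩ := Bf.forthW hv (by simp; omega) (by simp [m0]) w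
      exact ⟨w', Bf.sub h (by simp +contextual),
        hβ _ h (by simp; omega) (by simp +contextual) _ _ _ _ (by simp) (by simp)⟩)
    (fun v v' h => hβ _ h (by simp; omega) (by simp +contextual) _ _ _ _ (by simp) (by simp [m2]))
    (fun v v' h => hβ _ h (by simp; omega) (by simp +contextual) _ _ _ _ (by simp) (by simp [m4]))
    (fun v v' h => hβ _ h (by simp; omega) (by simp +contextual) _ _ _ _ (by simp [m5]) (by simp))
    (fun v v' h => hβ _ h (by simp; omega) (by simp +contextual) _ _ _ _ (by simp [m6]) (by simp))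
  exact ⟨h1, h2, h3, hZ⟩

theorem rigid {δ : A →ₗ[F] B →ₗ[F] F} (hδ : ∀ a, δ (c.pT a) = δ a) :
    Rigid (c.G δ) 12 (List.ofFn (c.cst δ)) := by
  intro Bf g g' h
  have hcs : (List.ofFn (c.cst δ)).map (fun x => (x, x)) =
      List.ofFn fun i => (c.cst δ i, c.cst δ i) := by
    rw [List.map_ofFn]; rfl
  obtain ⟨-, h1, h2, h3⟩ := c.grp_rigid hδ hδ le_rfl Bf hcs (Bf.sub h (by simp +contextual))
  have hm : ∀ i, (c.cst δ i, c.cst δ i) ∈ (List.ofFn (c.cst δ)).map (fun x => (x, x)) :=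
    fun i => hcs ▸ List.mem_ofFn.2 ⟨i, rfl⟩
  exact Bf.fixAll (by simp) (hm 0) (hm 1) h1 h2 h3 g g' h

theorem exists_twist [Finite A] [Finite B] {P : Type} [Finite P] (tw : P → A →ₗ[F] B →ₗ[F] F)
    (hinj : Function.Injective tw) (htw : ∀ p a, tw p (c.pT a) = tw p a)
    (hcard : Nat.card (c.G 0) ^ 7 < Nat.card P) :
    ∃ p, IsEmpty (c.G 0 ≃* c.G (tw p)) := by
  by_contra hne
  have hex : ∀ p, Nonempty (c.G 0 ≃* c.G (tw p)) := by
    intro p
    by_contra h
    exact hne ⟨p, not_nonempty_iff.1 h⟩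
  have : Finite (Dual F B) := Module.finite_of_finite F
  have : Finite (Dual F A) := Module.finite_of_finite F
  let φ := fun p => (hex p).some
  have hinj' : Function.Injective
      (fun p => fun i : Fin 7 => (φ p).symm (c.cst (tw p) i)) := by
    intro p p' h
    apply hinj
    refine (c.grp_rigid (htw p) (htw p') le_rfl (BF.ofIso ((φ p).symm.trans (φ p')) 12) rfl ?_).1
    intro x hx
    obtain ⟨i, rfl⟩ := List.mem_ofFn.1 hx
    have : (φ p).symm (c.cst (tw p) i) = (φ p').symm (c.cst (tw p') i) := congrFun h i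
    simp only [MulEquiv.trans_apply]
    rw [this]; simp
  have := Nat.card_le_card_of_injective _ hinj'
  rw [Nat.card_fun] at this
  simp at this
  omega

end Chain

end Pool.Agent.MP_45960e_lc

end

section

/-!
Duplicator's strategy: she keeps a bilinear form that repairs the twist on the pebbled elements.
-/

namespace Pool.Agent.MP_45960e_lc

open Module Grp Function

set_option synthInstance.maxHeartbeats 20000
set_option maxHeartbeats 400000

set_option linter.unusedSectionVars false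

section
variable {V W Z : Type} [AddCommGroup V] [Module F V] [AddCommGroup W] [Module F W]
  [AddCommGroup Z] [Module F Z] {β β' : V →ₗ[F] W →ₗ[F] Z}

def Grp.mapc (fV : V → V) (fW : W → W) (g : Grp β) : Grp β' := ⟨g.a, fV g.v, g.z, fW g.w, g.d⟩

variable (fV : V → V) (fW : W → W) (g : Grp β)

theorem Grp.mapc_a : (Grp.mapc fV fW g : Grp β').a = g.a := rfl
theorem Grp.mapc_v : (Grp.mapc fV fW g : Grp β').v = fV g.v := rfl
theorem Grp.mapc_z : (Grp.mapc fV fW g : Grp β').z = g.z := rfl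
theorem Grp.mapc_w : (Grp.mapc fV fW g : Grp β').w = fW g.w := rfl
theorem Grp.mapc_d : (Grp.mapc fV fW g : Grp β').d = g.d := rfl

end

variable {A B S : Type} [AddCommGroup A] [Module F A] [AddCommGroup B] [Module F B] [Fintype S]

namespace Chain
variable (c : Chain A B S)

/-- Forms that vanish on the top subspace. -/
def YY : Submodule F (A →ₗ[F] B →ₗ[F] F) where
  carrier := {Y | ∀ a ∈ c.T, Y a = 0}
  add_mem' := by
    intro x y hx hy a ha
    simp [hx a ha, hy a ha]
  zero_mem' := by intro a _; rfl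
  smul_mem' := by
    intro t x hx a ha
    simp [hx a ha]

def negY (Y : c.YY) : c.YY := ⟨-Y.1, fun a ha => by simp [Y.2 a ha]⟩

theorem negY_negY (Y : c.YY) : c.negY (c.negY Y) = Y := Subtype.ext (neg_neg Y.1)

def flipY (Y : c.YY) (b : B) : c.T.dualAnnihilator :=
  ⟨Y.1.flip b, (Submodule.mem_dualAnnihilator _).2 fun a ha => by simp [Y.2 a ha]⟩

def PhiV (Y : c.YY) (v : VV A B S) : VV A B S :=
  (v.1, v.2.1 + fun σ => Y.1 (c.N σ v.1.2.2.1), v.2.2)

def PhiW (Y : c.YY) (w : WW B c.T) : WW B c.T := (w.1, w.2.1 + c.flipY Y w.1, w.2.2)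

def Phi {δ δ' : A →ₗ[F] B →ₗ[F] F} (Y : c.YY) (g : c.G δ) : c.G δ' :=
  Grp.mapc (c.PhiV Y) (c.PhiW Y) g

/-- The defect of a form with respect to a twist. -/
def dft (δ Y : A →ₗ[F] B →ₗ[F] F) : A →ₗ[F] B →ₗ[F] F :=
  Y - δ - ∑ σ, Y.compl₁₂ (c.N σ) (c.M σ)

theorem dft_apply (δ Y : A →ₗ[F] B →ₗ[F] F) (a : A) (b : B) :
    c.dft δ Y a b = Y a b - δ a b - ∑ σ, Y (c.N σ a) (c.M σ b) := by
  simp [dft, LinearMap.sum_apply]

theorem Phi_a {δ δ' : A →ₗ[F] B →ₗ[F] F} (Y : c.YY) (g : c.G δ) :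
    (c.Phi Y g : c.G δ').a = g.a := Grp.mapc_a _ _ _
theorem Phi_v {δ δ' : A →ₗ[F] B →ₗ[F] F} (Y : c.YY) (g : c.G δ) :
    (c.Phi Y g : c.G δ').v = c.PhiV Y g.v := Grp.mapc_v _ _ _
theorem Phi_z {δ δ' : A →ₗ[F] B →ₗ[F] F} (Y : c.YY) (g : c.G δ) :
    (c.Phi Y g : c.G δ').z = g.z := Grp.mapc_z _ _ _
theorem Phi_w {δ δ' : A →ₗ[F] B →ₗ[F] F} (Y : c.YY) (g : c.G δ) :
    (c.Phi Y g : c.G δ').w = c.PhiW Y g.w := Grp.mapc_w _ _ _
theorem Phi_d {δ δ' : A →ₗ[F] B →ₗ[F] F} (Y : c.YY) (g : c.G δ) :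
    (c.Phi Y g : c.G δ').d = g.d := Grp.mapc_d _ _ _

theorem PhiV_fst (Y : c.YY) (v : VV A B S) : (c.PhiV Y v).1 = v.1 := rfl
theorem PhiW_fst (Y : c.YY) (w : WW B c.T) : (c.PhiW Y w).1 = w.1 := rfl

theorem PhiV_neg (Y : c.YY) (v : VV A B S) : c.PhiV (c.negY Y) (c.PhiV Y v) = v := by
  obtain ⟨r, P, x⟩ := v
  simp only [PhiV, Prod.mk.injEq, true_and, and_true]
  funext σ
  simp [negY]

theorem PhiW_neg (Y : c.YY) (w : WW B c.T) : c.PhiW (c.negY Y) (c.PhiW Y w) = w := by
  obtain ⟨b, Q, x⟩ := w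
  simp only [PhiW, Prod.mk.injEq, true_and, and_true]
  ext a
  simp [negY, flipY]

theorem PhiV_lin (Y : c.YY) (t : F) (v v' : VV A B S) :
    c.PhiV Y (t • v + v') = t • c.PhiV Y v + c.PhiV Y v' := by
  obtain ⟨r, P, x⟩ := v
  obtain ⟨r', P', x'⟩ := v'
  simp only [PhiV, Prod.smul_mk, Prod.mk_add_mk, Prod.mk.injEq, true_and, and_true]
  funext σ
  simp
  abel

theorem PhiW_lin (Y : c.YY) (t : F) (w w' : WW B c.T) :
    c.PhiW Y (w + t • w') = c.PhiW Y w + t • c.PhiW Y w' := by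
  obtain ⟨r, P, x⟩ := w
  obtain ⟨r', P', x'⟩ := w'
  simp only [PhiW, Prod.smul_mk, Prod.mk_add_mk, Prod.mk.injEq, true_and, and_true]
  ext a
  simp [flipY]
  ring

theorem Phi_neg {δ δ' : A →ₗ[F] B →ₗ[F] F} (Y : c.YY) (g : c.G δ) :
    (c.Phi (c.negY Y) (c.Phi Y g : c.G δ') : c.G δ) = g := by
  refine Grp.ext ?_ ?_ ?_ ?_ ?_
  · rw [Phi_a, Phi_a]
  · rw [Phi_v, Phi_v, PhiV_neg]
  · rw [Phi_z, Phi_z]
  · rw [Phi_w, Phi_w, PhiW_neg]
  · rw [Phi_d, Phi_d]

theorem Phi_inj {δ δ' : A →ₗ[F] B →ₗ[F] F} (Y : c.YY) :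
    Injective (c.Phi Y : c.G δ → c.G δ') := LeftInverse.injective (c.Phi_neg Y)

/-- Duplicator's bijection. -/
def bij {δ δ' : A →ₗ[F] B →ₗ[F] F} (Y : A → c.YY) : c.G δ ≃ c.G δ' where
  toFun g := c.Phi (Y g.v.1.2.2.1) g
  invFun g := c.Phi (c.negY (Y g.v.1.2.2.1)) g
  left_inv g := by
    simp only [Phi_v, PhiV_fst]
    exact c.Phi_neg _ g
  right_inv g := by
    simp only [Phi_v, PhiV_fst]
    have := c.Phi_neg (δ' := δ) (c.negY (Y g.v.1.2.2.1)) g
    rw [negY_negY] at this
    exact this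

theorem bij_apply {δ δ' : A →ₗ[F] B →ₗ[F] F} (Y : A → c.YY) (g : c.G δ) :
    (c.bij Y g : c.G δ') = c.Phi (Y g.v.1.2.2.1) g := rfl

theorem beta_Phi {δ : A →ₗ[F] B →ₗ[F] F} (Y : c.YY) (v : VV A B S) (w : WW B c.T)
    (h : c.dft δ Y.1 v.1.2.2.1 w.1 = 0) :
    c.beta δ (c.PhiV Y v) (c.PhiW Y w) = c.beta 0 v w := by
  have : c.col δ (c.PhiV Y v) (c.PhiW Y w) = c.col 0 v w := by
    funext o
    rw [dft_apply] at h
    cases o with
    | none =>
      simp [col, PhiV, PhiW, flipY, Finset.sum_add_distrib]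
      linear_combination -h
    | some σ => simp [col, PhiV, PhiW, flipY]
  rw [beta_apply, beta_apply, this]
  simp only [PhiV, PhiW]

theorem Phi_mul {δ : A →ₗ[F] B →ₗ[F] F} (Y : c.YY) (g h : c.G 0)
    (hd : c.dft δ Y.1 g.v.1.2.2.1 h.w.1 = 0) :
    (c.Phi Y (g * h) : c.G δ) = c.Phi Y g * c.Phi Y h := by
  refine Grp.ext ?_ ?_ ?_ ?_ ?_
  · rw [Phi_a, mul_a, mul_a, Phi_a, Phi_a]
  · rw [Phi_v, mul_v, mul_v, Phi_a, Phi_v, Phi_v, PhiV_lin]
  · rw [Phi_z, mul_z, mul_z, Phi_a, Phi_v, Phi_w, Phi_z, Phi_z, Phi_d, c.beta_Phi Y _ _ hd]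
  · rw [Phi_w, mul_w, mul_w, Phi_d, Phi_w, Phi_w, PhiW_lin]
  · rw [Phi_d, mul_d, mul_d, Phi_d, Phi_d]

theorem Phi_congr {δ δ' : A →ₗ[F] B →ₗ[F] F} {Y Y' : c.YY} (g : c.G δ)
    (h1 : ∀ σ, Y'.1 (c.N σ g.v.1.2.2.1) = Y.1 (c.N σ g.v.1.2.2.1))
    (h2 : ∀ a, Y'.1 a g.w.1 = Y.1 a g.w.1) : (c.Phi Y' g : c.G δ') = c.Phi Y g := by
  have e1 : c.PhiV Y' g.v = c.PhiV Y g.v := by simp only [PhiV, h1]
  have e2 : c.flipY Y' g.w.1 = c.flipY Y g.w.1 := by
    ext a
    simp [flipY, h2]
  simp only [Phi, Grp.mapc, e1, PhiW, e2]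

theorem not_wins {δ : A →ₗ[F] B →ₗ[F] F} {k : ℕ} (Low : ℕ → c.YY → Prop)
    (Good : c.YY → A → Prop) (h0 : ∀ Y, Good Y 0)
    (hG : ∀ Y a, Good Y a → c.dft δ Y.1 a = 0)
    (hstep : ∀ l Y, Low (l + 1) Y → ∀ (as : Fin k → A) (bs : Fin k → B), (∀ i, Good Y (as i)) →
      ∀ a, ∃ Y', Low l Y' ∧ Good Y' a ∧ (∀ i, Good Y' (as i)) ∧
        (∀ i σ, Y'.1 (c.N σ (as i)) = Y.1 (c.N σ (as i))) ∧ ∀ i x, Y'.1 x (bs i) = Y.1 x (bs i))
    (l : ℕ) : ∀ (p : Fin k → Option (c.G 0 × c.G δ)) (Y : c.YY), Low l Y →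
      (∀ i x, p i = some x → x.2 = c.Phi Y x.1 ∧ Good Y x.1.v.1.2.2.1) → ¬ Wins l p := by
  induction l with
  | zero => intro p Y _ _ h; exact h
  | succ l ih =>
    rintro p Y hl hp ⟨i, hi⟩
    have hs := hstep l Y hl (fun j => (p j).elim 0 fun x => x.1.v.1.2.2.1)
      (fun j => (p j).elim 0 fun x => x.1.w.1) (by
        intro j
        cases h : p j with
        | none => exact h0 Y
        | some x => exact (hp j x h).2)
    choose Y' h1 h2 h3 h4 h5 using hs
    obtain ⟨g, hg⟩ := hi (c.bij Y')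
    have hinv : ∀ j x, update p i (some (g, c.bij Y' g)) j = some x →
        x.2 = c.Phi (Y' g.v.1.2.2.1) x.1 ∧ Good (Y' g.v.1.2.2.1) x.1.v.1.2.2.1 := by
      intro j x hx
      by_cases hj : j = i
      · subst hj
        rw [update_self] at hx
        cases hx
        exact ⟨c.bij_apply _ _, h2 _⟩
      · rw [update_of_ne hj] at hx
        refine ⟨?_, by simpa [hx] using h3 g.v.1.2.2.1 j⟩
        rw [(hp j x hx).1]
        exact (c.Phi_congr _ (by simpa [hx] using h4 g.v.1.2.2.1 j)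
          (by simpa [hx] using h5 g.v.1.2.2.1 j)).symm
    rcases hg with hg | hg
    · apply hg
      constructor
      · intro a b x y hx hy
        rw [(hinv a x hx).1, (hinv b y hy).1]
        exact (c.Phi_inj _).eq_iff.symm
      · intro a b e x y z hx hy hz
        rw [(hinv a x hx).1, (hinv b y hy).1, (hinv e z hz).1,
          ← c.Phi_mul _ _ _ (by rw [hG _ _ (hinv a x hx).2]; rfl)]
        exact (c.Phi_inj _).eq_iff.symm
    · exact ih _ _ (h1 _) hinv hg

end Chain

end Pool.Agent.MP_45960e_lc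

end

section

/-!
Families of endomorphisms that expand, found by counting, and the solvability lemma they give.
-/

namespace Pool.Agent.MP_45960e_lc

open Module Finset

theorem union_bound {Ω Y P : Type} [AddCommGroup Ω] [AddCommGroup Y] [Finite Ω] [Finite Y]
    [Finite P] (L : P → Ω →+ Y) (y : P → Y) (good : P → Prop)
    (hs : ∀ p, good p → Function.Surjective (L p)) (hc : Nat.card P < Nat.card Y) :
    ∃ ω, ∀ p, good p → L p ω ≠ y p := by
  classical
  have := Fintype.ofFinite Ω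
  have := Fintype.ofFinite Y
  have := Fintype.ofFinite P
  by_contra hne
  push Not at hne
  have h1 : ∀ p, good p → Fintype.card Y * #{ω | L p ω = y p} = Fintype.card Ω := by
    intro p hp
    rw [← Finset.card_univ (α := Ω), Finset.card_eq_sum_card_fiberwise (f := L p) (s := univ)
      (t := univ) (by simp)]
    rw [Finset.sum_congr rfl (fun b _ => AddMonoidHom.card_fiber_eq_of_mem_range (L p)
      (hs p hp b) (hs p hp (y p)))]
    simp
  have h2 : Fintype.card Ω ≤ ∑ p ∈ univ.filter good, #{ω | L p ω = y p} := by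
    refine le_trans ?_ (Finset.card_biUnion_le)
    refine Finset.card_le_card ?_
    intro ω _
    obtain ⟨p, hp, h⟩ := hne ω
    simp only [mem_biUnion, mem_filter, mem_univ, true_and]
    exact ⟨p, hp, h⟩
  have h3 : Fintype.card Y * Fintype.card Ω ≤ Fintype.card P * Fintype.card Ω := by
    calc Fintype.card Y * Fintype.card Ω
        ≤ Fintype.card Y * ∑ p ∈ univ.filter good, #{ω | L p ω = y p} :=
          Nat.mul_le_mul_left _ h2
      _ = ∑ p ∈ univ.filter good, Fintype.card Ω := by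
          rw [Finset.mul_sum]
          exact Finset.sum_congr rfl fun p hp => h1 p (by simpa using hp)
      _ ≤ Fintype.card P * Fintype.card Ω := by
          rw [Finset.sum_const, smul_eq_mul]
          exact Nat.mul_le_mul_right _ (Finset.card_le_univ _)
  have h4 := Nat.le_of_mul_le_mul_right h3 Fintype.card_pos
  simp only [Nat.card_eq_fintype_card] at hc
  omega

theorem exists_solve {ι κ M : Type} [Fintype ι] [Fintype κ] [AddCommGroup M] [Module F M]
    (c : ι → κ → F) (hc : LinearIndependent F c) (y : ι → M) :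
    ∃ x : κ → M, ∀ e, ∑ σ, c e σ • x σ = y e := by
  classical
  obtain ⟨g, hg⟩ := (Fintype.linearCombination F c).exists_leftInverse_of_injective
    (LinearMap.ker_eq_bot.2 hc.fintypeLinearCombination_injective)
  refine ⟨fun σ => Fintype.linearCombination F y (g (Pi.single σ 1)), fun e => ?_⟩
  have h1 : g (c e) = Pi.single e 1 := by
    have := LinearMap.congr_fun hg (Pi.single e 1)
    simpa using this
  have h2 : c e = ∑ σ, c e σ • Pi.single σ (1 : F) := by
    ext t; simp [Finset.sum_apply, Pi.single_apply]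
  simp only [← map_smul, ← map_sum]
  rw [← h2, h1]; simp

variable {E E' : Type} [AddCommGroup E] [Module F E] [AddCommGroup E'] [Module F E']
  {q u : ℕ}

/-- The span of the images of `n σ (ts p)` and of `ts' p`. -/
def spanU (π : E →ₗ[F] E') (n : Fin q → E →ₗ[F] E) (ts ts' : Fin u → E) : Submodule F E' :=
  Submodule.span F (Set.range
    (Sum.elim (fun x : Fin q × Fin u => π (n x.1 (ts x.2))) (fun p : Fin u => π (ts' p))))

/-- The expansion property. -/
def Expands (π : E →ₗ[F] E') (n : Fin q → E →ₗ[F] E) (u D : ℕ) : Prop :=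
  ∀ ts ts' : Fin u → E, ∀ v ∉ Submodule.span F (Set.range ts),
    finrank F (LinearMap.ker ((spanU π n ts ts').mkQ ∘ₗ π ∘ₗ
      Fintype.linearCombination F fun σ => n σ v)) ≤ D

theorem exists_expands [Finite E] [Finite E'] (π : E →ₗ[F] E') (hπ : Function.Surjective π)
    (q u D : ℕ) (hc : Nat.card E ^ (2 * u + 1) * 3 ^ ((D + 1) * (q + q * u + u)) <
      Nat.card E' ^ (D + 1)) : ∃ n : Fin q → E →ₗ[F] E, Expands π n u D := by
  classical
  have : Finite (E →ₗ[F] E) := Module.finite_of_finite F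
  let P := (Fin u → E) × (Fin u → E) × E × (Fin (D + 1) → Fin q → F) ×
    (Fin (D + 1) → (Fin q × Fin u) ⊕ Fin u → F)
  let L : P → (Fin q → E →ₗ[F] E) →+ (Fin (D + 1) → E') := fun p => AddMonoidHom.mk'
    (fun n e => π (∑ σ, p.2.2.2.1 e σ • n σ p.2.2.1) -
      ∑ x : Fin q × Fin u, p.2.2.2.2 e (Sum.inl x) • π (n x.1 (p.1 x.2))) (by
      intro a b
      funext e
      simp only [Pi.add_apply, LinearMap.add_apply, smul_add, Finset.sum_add_distrib, map_add]
      abel)
  obtain ⟨n, hn⟩ := union_bound L (fun p e => ∑ x, p.2.2.2.2 e (Sum.inr x) • π (p.2.1 x))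
    (fun p => p.2.2.1 ∉ Submodule.span F (Set.range p.1) ∧ LinearIndependent F p.2.2.2.1)
    (by
      rintro ⟨ts, ts', v, c, l⟩ ⟨hv, hc⟩ y
      obtain ⟨φ, h1, h2⟩ := LinearMap.exists_extend_of_notMem
        (0 : Submodule.span F (Set.range ts) →ₗ[F] F) hv 1
      have h3 : ∀ p, φ (ts p) = 0 := fun p =>
        LinearMap.congr_fun h1 ⟨ts p, Submodule.subset_span ⟨p, rfl⟩⟩
      choose y' hy' using fun e => hπ (y e)
      obtain ⟨x, hx⟩ := exists_solve c hc y'
      refine ⟨fun σ => φ.smulRight (x σ), ?_⟩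
      funext e
      simp only [L, AddMonoidHom.mk'_apply, LinearMap.smulRight_apply, h2, h3, one_smul,
        zero_smul, map_zero, smul_zero, Finset.sum_const_zero, sub_zero]
      rw [hx, hy'])
    (by
      refine lt_of_eq_of_lt ?_ (lt_of_lt_of_eq hc ?_)
      · simp only [P, Nat.card_prod, Nat.card_fun, Nat.card_sum, Nat.card_fin, Nat.card_zmod]
        ring
      · simp [Nat.card_fun])
  refine ⟨n, fun ts ts' v hv => ?_⟩
  by_contra hlt
  obtain ⟨f, hf⟩ := exists_linearIndependent_of_le_finrank (Nat.succ_le_of_lt (not_le.1 hlt))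
  have hf' := hf.map' _ (Submodule.ker_subtype _)
  have hm : ∀ e, π (∑ σ, (f e).1 σ • n σ v) ∈ spanU π n ts ts' := by
    intro e
    have := LinearMap.mem_ker.1 (f e).2
    rw [LinearMap.comp_apply, LinearMap.comp_apply, Fintype.linearCombination_apply] at this
    exact (Submodule.Quotient.mk_eq_zero _).1 this
  choose l hl using fun e => (Submodule.mem_span_range_iff_exists_fun F).1 (hm e)
  refine hn (ts, ts', v, fun e => (f e).1, l) ⟨hv, hf'⟩ ?_
  funext e
  simp only [L, AddMonoidHom.mk'_apply]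
  rw [← hl e, Fintype.sum_sum_type]
  simp

theorem orth {X Y : Type} [AddCommGroup X] [Module F X] [AddCommGroup Y] [Module F Y] {D : ℕ}
    (x : Fin q → X) (y : Fin q → Y)
    (hx : finrank F (LinearMap.ker (Fintype.linearCombination F x)) ≤ D)
    (hy : finrank F (LinearMap.ker (Fintype.linearCombination F y)) ≤ D)
    (h : ∀ η : X →ₗ[F] Y →ₗ[F] F, ∑ σ, η (x σ) (y σ) = 0) : q ≤ 2 * D := by
  classical
  let yT := (LinearEquiv.piRing F F (Fin q) F).toLinearMap ∘ₗ
    (Fintype.linearCombination F y).dualMap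
  have h1 : LinearMap.range yT ≤ LinearMap.ker (Fintype.linearCombination F x) := by
    rintro _ ⟨γ, rfl⟩
    rw [LinearMap.mem_ker, ← Module.forall_dual_apply_eq_zero_iff F]
    intro α
    have := h (α.smulRight γ)
    simpa [yT, Fintype.linearCombination_apply, mul_comm] using this
  have h2 : finrank F (LinearMap.range yT) =
      finrank F (LinearMap.range (Fintype.linearCombination F y)) := by
    rw [LinearMap.range_comp, LinearEquiv.finrank_map_eq,
      LinearMap.finrank_range_dualMap_eq_finrank_range]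
  have h3 := LinearMap.finrank_range_add_finrank_ker (Fintype.linearCombination F y)
  have h4 := Submodule.finrank_mono h1
  simp at h3
  omega

theorem lc_comp {X : Type} [AddCommGroup X] [Module F X] (f : E →ₗ[F] X) (x : Fin q → E) :
    Fintype.linearCombination F (fun σ => f (x σ)) = f ∘ₗ Fintype.linearCombination F x := by
  ext; simp

theorem Expands.key [Module.Finite F E] {π : E →ₗ[F] E'} {n : Fin q → E →ₗ[F] E} {D : ℕ}
    (h : Expands π n u D) (hq : 2 * D < q) (ts ts' ss : Fin u → E) (v : E)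
    (hv : v ∉ Submodule.span F (Set.range ts)) (ρ : Dual F E) :
    ∃ η : E →ₗ[F] E →ₗ[F] F, (∀ σ p, η (n σ (ts p)) = 0) ∧ (∀ p, η (ts' p) = 0) ∧
      (∀ x, π x = 0 → η x = 0) ∧ (∀ x p, η x (ss p) = 0) ∧
      ∀ w, ∑ σ, η (n σ v) (n σ w) = ρ w := by
  let qU := (spanU π n ts ts').mkQ ∘ₗ π
  let qS := (spanU π n 0 ss).mkQ ∘ₗ π
  let Ψ : ((E' ⧸ spanU π n ts ts') →ₗ[F] (E' ⧸ spanU π n 0 ss) →ₗ[F] F) →ₗ[F] E →ₗ[F] F :=
    LinearMap.mk₂ F (fun η w => ∑ σ, η (qU (n σ v)) (qS (n σ w)))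
      (by intros; simp [Finset.sum_add_distrib]) (by intros; simp [Finset.mul_sum])
      (by intros; simp [Finset.sum_add_distrib]) (by intros; simp [Finset.mul_sum])
  have hΨ : Function.Surjective Ψ := by
    refine (LinearMap.flip_injective_iff₂ (K := F)
      (V₁ := (E' ⧸ spanU π n ts ts') →ₗ[F] (E' ⧸ spanU π n 0 ss) →ₗ[F] F) (V₂ := E)
      (B := Ψ)).1 ?_
    rw [← LinearMap.ker_eq_bot, LinearMap.ker_eq_bot']
    intro w hw
    by_contra hw0
    have := orth (D := D) (fun σ => qU (n σ v)) (fun σ => qS (n σ w))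
      (by rw [lc_comp]; exact h ts ts' v hv)
      (by
        rw [lc_comp]
        refine h 0 ss w ?_
        intro hmem
        apply hw0
        have : Submodule.span F (Set.range (0 : Fin u → E)) = ⊥ := by
          rw [Submodule.span_eq_bot]; rintro _ ⟨i, rfl⟩; rfl
        simpa [this] using hmem)
      (fun η => LinearMap.congr_fun hw η)
    omega
  obtain ⟨η, hη⟩ := hΨ ρ
  refine ⟨η.compl₁₂ qU qS, ?_, ?_, ?_, ?_, fun w => LinearMap.congr_fun hη w⟩
  · intro σ p
    have : qU (n σ (ts p)) = 0 := (Submodule.Quotient.mk_eq_zero _).2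
      (Submodule.subset_span ⟨Sum.inl (σ, p), rfl⟩)
    ext w; simp [this]
  · intro p
    have : qU (ts' p) = 0 := (Submodule.Quotient.mk_eq_zero _).2
      (Submodule.subset_span ⟨Sum.inr p, rfl⟩)
    ext w; simp [this]
  · intro x hx
    ext w; simp [qU, hx]
  · intro x p
    have : qS (ss p) = 0 := (Submodule.Quotient.mk_eq_zero _).2
      (Submodule.subset_span ⟨Sum.inr p, rfl⟩)
    simp [this]

end Pool.Agent.MP_45960e_lc

end

section

/-!
The chain on a square grid of blocks.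
-/

namespace Pool.Agent.MP_45960e_lc

open Module Function

set_option synthInstance.maxHeartbeats 40000
set_option maxHeartbeats 800000
set_option linter.unusedSectionVars false

section
variable {E : Type} [AddCommGroup E] [Module F E] {R : ℕ} [NeZero R]

def shiftL (f : E →ₗ[F] E) : (Fin R → E) →ₗ[F] (Fin R → E) :=
  LinearMap.pi fun i => if h : i.val + 1 < R then f ∘ₗ LinearMap.proj (⟨i.val + 1, h⟩ : Fin R)
    else 0

def wrapL (f : E →ₗ[F] E) : (Fin R → E) →ₗ[F] (Fin R → E) :=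
  LinearMap.pi fun i => if i.val + 1 = R then f ∘ₗ LinearMap.proj (0 : Fin R) else 0

def diagL (f : E →ₗ[F] E) : (Fin R → E) →ₗ[F] (Fin R → E) :=
  LinearMap.pi fun i => f ∘ₗ LinearMap.proj i

theorem shiftL_apply (f : E →ₗ[F] E) (a : Fin R → E) (i : Fin R) :
    shiftL f a i = if h : i.val + 1 < R then f (a ⟨i.val + 1, h⟩) else 0 := by
  simp only [shiftL, LinearMap.pi_apply]
  split_ifs <;> simp

theorem wrapL_apply (f : E →ₗ[F] E) (a : Fin R → E) (i : Fin R) :
    wrapL f a i = if i.val + 1 = R then f (a 0) else 0 := by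
  simp only [wrapL, LinearMap.pi_apply]
  split_ifs <;> simp

theorem diagL_single (f : E →ₗ[F] E) (j : Fin R) (w : E) :
    diagL f (Pi.single j w) = Pi.single j (f w) := by
  funext i
  by_cases h : i = j
  · subst h; simp [diagL]
  · simp [diagL, h]

theorem shiftL_zero (f : E →ₗ[F] E) (i : Fin R) (hi : i.val = 0) (v : E) :
    shiftL f (Pi.single i v) = 0 := by
  funext j
  rw [shiftL_apply]
  split_ifs with h
  · rw [Pi.single_eq_of_ne (by intro e; rw [← e] at hi; simp at hi)]; simp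
  · rfl

theorem shiftL_succ (f : E →ₗ[F] E) (i i' : Fin R) (hi : i.val = i'.val + 1) (v : E) :
    shiftL f (Pi.single i v) = Pi.single i' (f v) := by
  funext j
  rw [shiftL_apply]
  by_cases hj : j = i'
  · subst hj
    have h : j.val + 1 < R := hi ▸ i.2
    have : (⟨j.val + 1, h⟩ : Fin R) = i := Fin.ext hi.symm
    rw [dif_pos h, this]; simp
  · rw [Pi.single_eq_of_ne hj]
    split_ifs with h
    · rw [Pi.single_eq_of_ne]
      · simp
      · intro e
        apply hj
        apply Fin.ext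
        rw [← e] at hi
        simpa using hi
    · rfl

theorem wrapL_ne (f : E →ₗ[F] E) (i : Fin R) (hi : i.val ≠ 0) (v : E) :
    wrapL f (Pi.single i v) = 0 := by
  funext j
  rw [wrapL_apply, Pi.single_eq_of_ne (by intro e; rw [← e] at hi; simp at hi)]
  simp

theorem wrapL_zero (f : E →ₗ[F] E) (i i' : Fin R) (hi : i.val = 0) (hi' : i'.val + 1 = R)
    (v : E) : wrapL f (Pi.single i v) = Pi.single i' (f v) := by
  have : i = 0 := Fin.ext (by simpa using hi)
  subst this
  funext j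
  rw [wrapL_apply]
  by_cases hj : j = i'
  · subst hj; simp [hi']
  · rw [Pi.single_eq_of_ne hj, if_neg]
    intro e
    exact hj (Fin.ext (by omega))

theorem pred_cases {i j i' j' : Fin R} (h : j'.val * R + i'.val + 1 = j.val * R + i.val) :
    (i.val = i'.val + 1 ∧ j = j') ∨ (i.val = 0 ∧ i'.val + 1 = R ∧ j.val = j'.val + 1) := by
  have h1 := i.2
  have h2 := i'.2
  rcases lt_trichotomy j.val j'.val with hj | hj | hj
  · have := Nat.mul_le_mul_right R (Nat.succ_le_of_lt hj)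
    rw [Nat.succ_mul] at this
    omega
  · left
    rw [hj] at h
    exact ⟨by omega, Fin.ext hj⟩
  · right
    rcases (Nat.succ_le_of_lt hj).eq_or_lt with hj2 | hj2
    · rw [← hj2, Nat.succ_mul] at h
      omega
    · have := Nat.mul_le_mul_right R (Nat.succ_le_of_lt hj2)
      rw [Nat.succ_mul, Nat.succ_mul] at this
      omega

theorem exists_pred (i j : Fin R) (h : j.val * R + i.val ≠ 0) :
    ∃ i' j' : Fin R, j'.val * R + i'.val + 1 = j.val * R + i.val := by
  have h1 := i.2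
  have h2 := j.2
  by_cases hi : i.val = 0
  · have hj : j.val ≠ 0 := by intro e; simp [e, hi] at h
    refine ⟨⟨R - 1, by omega⟩, ⟨j.val - 1, by omega⟩, ?_⟩
    obtain ⟨m, hm⟩ := Nat.exists_eq_succ_of_ne_zero hj
    simp only [hm, Nat.succ_sub_one, Nat.succ_mul]
    omega
  · exact ⟨⟨i.val - 1, by omega⟩, j, by simp only; omega⟩

variable {q : ℕ} (n : Fin q → E →ₗ[F] E)

def NN : Bool × Fin q → (Fin R → E) →ₗ[F] (Fin R → E)
  | (true, σ) => shiftL (n σ)
  | (false, σ) => wrapL (n σ)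

def MM : Bool × Fin q → (Fin R → E) →ₗ[F] (Fin R → E)
  | (true, σ) => diagL (n σ)
  | (false, σ) => shiftL (n σ)

theorem sum_zero (Y : (Fin R → E) →ₗ[F] (Fin R → E) →ₗ[F] F) (i j : Fin R)
    (h : j.val * R + i.val = 0) (v w : E) :
    ∑ σ, Y (NN n σ (Pi.single i v)) (MM n σ (Pi.single j w)) = 0 := by
  have hi : i.val = 0 := by omega
  have hj : j.val = 0 := by
    have := NeZero.ne R
    have h2 : j.val * R = 0 := by omega
    simpa [this] using h2
  refine Finset.sum_eq_zero ?_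
  rintro ⟨b, σ⟩ -
  cases b
  · simp [MM, shiftL_zero _ _ hj]
  · simp [NN, shiftL_zero _ _ hi]

theorem sum_pred (Y : (Fin R → E) →ₗ[F] (Fin R → E) →ₗ[F] F) {i j i' j' : Fin R}
    (h : j'.val * R + i'.val + 1 = j.val * R + i.val) (v w : E) :
    ∑ σ, Y (NN n σ (Pi.single i v)) (MM n σ (Pi.single j w)) =
      ∑ σ, Y (Pi.single i' (n σ v)) (Pi.single j' (n σ w)) := by
  rw [Fintype.sum_prod_type, Fintype.sum_bool]
  rcases pred_cases h with ⟨h1, rfl⟩ | ⟨h1, h2, h3⟩
  · simp [NN, MM, shiftL_succ _ _ _ h1, diagL_single, wrapL_ne _ i (by omega)]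
  · simp [NN, MM, shiftL_succ _ _ _ h3, shiftL_zero _ _ h1, wrapL_zero _ _ _ h1 h2]

/-- The cyclic successor. -/
def nx (i : Fin R) : Fin R := if h : i.val + 1 < R then ⟨i.val + 1, h⟩ else 0

theorem NN_apply (σ : Bool × Fin q) (a : Fin R → E) (i : Fin R) :
    NN n σ a i = 0 ∨ NN n σ a i = n σ.2 (a (nx i)) := by
  obtain ⟨b, σ⟩ := σ
  cases b
  · simp only [NN, wrapL_apply, nx]
    split_ifs with h1 h2
    · omega
    · exact Or.inr rfl
    · exact Or.inl rfl
    · exact Or.inl rfl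
  · simp only [NN, shiftL_apply, nx]
    split_ifs
    · exact Or.inr rfl
    · exact Or.inl rfl

theorem nx_eq {i j i' j' : Fin R} (h : j'.val * R + i'.val + 1 = j.val * R + i.val) :
    i = nx i' := by
  have := i.2
  rcases pred_cases h with ⟨h1, -⟩ | ⟨h1, h2, -⟩
  · rw [nx, dif_pos (by omega)]; exact Fin.ext h1
  · rw [nx, dif_neg (by omega)]; exact Fin.ext (by simpa using h1)

theorem span_single : Submodule.span F {a : Fin R → E | ∃ i v, a = Pi.single i v} = ⊤ := by
  rw [eq_top_iff]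
  intro a _
  rw [← Finset.univ_sum_single a]
  exact Submodule.sum_mem _ fun i _ => Submodule.subset_span ⟨i, a i, rfl⟩

/-- The form assembled from its blocks. -/
def glue (η : Fin R → Fin R → E →ₗ[F] E →ₗ[F] F) : (Fin R → E) →ₗ[F] (Fin R → E) →ₗ[F] F :=
  ∑ i, ∑ j, (η i j).compl₁₂ (LinearMap.proj i) (LinearMap.proj j)

theorem glue_apply (η : Fin R → Fin R → E →ₗ[F] E →ₗ[F] F) (a b : Fin R → E) :
    glue η a b = ∑ i, ∑ j, η i j (a i) (b j) := by
  simp [glue, LinearMap.sum_apply]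

theorem glue_single (η : Fin R → Fin R → E →ₗ[F] E →ₗ[F] F) (i j : Fin R) (v w : E) :
    glue η (Pi.single i v) (Pi.single j w) = η i j v w := by
  rw [glue_apply, Finset.sum_eq_single i, Finset.sum_eq_single j]
  · simp
  · intro b _ hb; simp [hb]
  · simp
  · intro b _ hb; simp [hb]
  · simp

theorem Expands.key' [Module.Finite F E] {E' : Type} [AddCommGroup E'] [Module F E']
    {π : E →ₗ[F] E'} {n : Fin q → E →ₗ[F] E} {u D k : ℕ}
    (h : Expands π n u D) (hq : 2 * D < q) (hk : k < u) (ts ts' ss : Fin k → E) (z v : E)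
    (hv : v ∉ Submodule.span F (Set.range ts)) (ρ : Dual F E) :
    ∃ η : E →ₗ[F] E →ₗ[F] F, (∀ σ p, η (n σ (ts p)) = 0) ∧ (∀ p, η (ts' p) = 0) ∧ η z = 0 ∧
      (∀ x, π x = 0 → η x = 0) ∧ (∀ x p, η x (ss p) = 0) ∧
      ∀ w, ∑ σ, η (n σ v) (n σ w) = ρ w := by
  let pad : (Fin k → E) → E → Fin u → E := fun f y p => if h : p.val < k then f ⟨p.val, h⟩ else y
  have hpad : ∀ f y (p : Fin k), pad f y ⟨p.val, by omega⟩ = f p := by
    intro f y p; simp [pad]
  obtain ⟨η, h1, h2, h3, h4, h5⟩ := h.key hq (pad ts 0) (pad ts' z) (pad ss 0) v (by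
    intro hm
    refine hv (Submodule.span_le.2 ?_ hm)
    rintro _ ⟨p, rfl⟩
    simp only [pad]
    split_ifs
    · exact Submodule.subset_span ⟨_, rfl⟩
    · exact Submodule.zero_mem _) ρ
  refine ⟨η, fun σ p => hpad ts 0 p ▸ h1 σ _, fun p => hpad ts' z p ▸ h2 _, ?_, h3,
    fun x p => hpad ss 0 p ▸ h4 x _, h5⟩
  simpa [pad] using h2 ⟨k, hk⟩

end

variable {U : Type} [AddCommGroup U] [Module F U] [Module.Finite F U] [Nontrivial U]
  {q : ℕ} (R : ℕ) [NeZero R] (n : Fin q → (U × U) →ₗ[F] (U × U))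

/-- The chain on the grid. -/
noncomputable def grid : Chain (Fin R → U × U) (Fin R → U × U) (Bool × Fin q) where
  N := NN n
  M := MM n
  T := LinearMap.range (LinearMap.single F (fun _ => U × U) 0 ∘ₗ LinearMap.inl F U U)
  C := (exists_cyc _).choose
  hC := (exists_cyc _).choose_spec.1
  gen := (exists_cyc _).choose_spec.2
  Hom t a b := ∃ (i j : Fin R) (v w : U × U),
    t = j.val * R + i.val ∧ a = Pi.single i v ∧ b = Pi.single j w
  step := by
    rintro t a b ⟨i, j, v, w, rfl, rfl, rfl⟩ ⟨s, σ⟩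
    have h1 := i.2
    have h2 := j.2
    cases s
    · by_cases hi : i.val = 0
      · by_cases hj : j.val = 0
        · exact Or.inr (Or.inl (shiftL_zero _ _ hj _))
        · refine Or.inr (Or.inr ⟨_, ?_, ⟨R - 1, by omega⟩, ⟨j.val - 1, by omega⟩, _, _, rfl,
            wrapL_zero _ _ _ hi (by simp only; omega) _,
            shiftL_succ _ _ _ (by simp only; omega) _⟩)
          obtain ⟨m, hm⟩ := Nat.exists_eq_succ_of_ne_zero hj
          simp only [hm, Nat.succ_sub_one, Nat.succ_mul]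
          omega
      · exact Or.inl (wrapL_ne _ _ hi _)
    · by_cases hi : i.val = 0
      · exact Or.inl (shiftL_zero _ _ hi _)
      · exact Or.inr (Or.inr ⟨_, by simp only; omega, ⟨i.val - 1, by omega⟩, j, _, _, rfl,
          shiftL_succ _ _ _ (by simp only; omega) _, diagL_single _ _ _⟩)
  pT a := Pi.single 0 ((a 0).1, 0)
  pT_mem a := ⟨(a 0).1, rfl⟩
  pT_hom := by
    rintro t a b ⟨i, j, v, w, rfl, rfl, rfl⟩
    by_cases hi : i = 0
    · subst hi
      exact Or.inr ⟨0, j, _, w, rfl, rfl, rfl⟩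
    · left
      rw [Pi.single_eq_of_ne (Ne.symm hi)]
      simp
  SA := {a | ∃ i v, a = Pi.single i v}
  SB := {a | ∃ i v, a = Pi.single i v}
  spanA := span_single
  spanB := span_single
  ex := by
    rintro _ ⟨i, v, rfl⟩ _ ⟨j, w, rfl⟩
    exact ⟨_, i, j, v, w, rfl, rfl, rfl⟩
  b0 := (exists_ne (0 : Fin R → U × U)).choose
  hb0 := (exists_ne (0 : Fin R → U × U)).choose_spec

theorem grid_dft (δ Y : (Fin R → U × U) →ₗ[F] (Fin R → U × U) →ₗ[F] F) (a b : Fin R → U × U) :
    (grid R n).dft δ Y a b = Y a b - δ a b - ∑ σ, Y (NN n σ a) (MM n σ b) :=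
  (grid R n).dft_apply δ Y a b

theorem grid_not_wins {u D k l : ℕ} (hn : Expands (LinearMap.snd F U U) n u D)
    (hq : 2 * D < q) (hk : k < u) (δ : (Fin R → U × U) →ₗ[F] (Fin R → U × U) →ₗ[F] F)
    (hδ : ∀ (i j : Fin R) v w, j.val * R + i.val < l → δ (Pi.single i v) (Pi.single j w) = 0) :
    ¬ Wins (k := k) (G := (grid R n).G 0) (H := (grid R n).G δ) l (fun _ => none) := by
  refine (grid R n).not_wins (δ := δ)
    (fun l Y => ∀ (i j : Fin R) v w, j.val * R + i.val < l →
      Y.1 (Pi.single i v) (Pi.single j w) = 0 ∧ δ (Pi.single i v) (Pi.single j w) = 0)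
    (fun Y a => ∀ i, (grid R n).dft δ Y.1 (Pi.single i (a i)) = 0) ?_ ?_ ?_ l _
    ⟨0, fun _ _ => rfl⟩ (fun i j v w h => ⟨rfl, hδ i j v w h⟩) (by simp)
  · intro Y i; simp
  · intro Y a h
    rw [← Finset.univ_sum_single a, map_sum]
    exact Finset.sum_eq_zero fun i _ => h i
  · intro l Y hl as bs hg a
    have hη : ∀ i' j' : Fin R, ∃ η : (U × U) →ₗ[F] (U × U) →ₗ[F] F,
        (∀ σ p, η (n σ (as p (nx i'))) = 0) ∧ (∀ p, η (as p i') = 0) ∧ η (a i') = 0 ∧
        (∀ x : U × U, x.2 = 0 → η x = 0) ∧ (∀ x p, η x (bs p j') = 0) ∧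
        (∀ j : Fin R, j'.val * R + i'.val + 1 = j.val * R + (nx i').val → ∀ w,
          ∑ σ, η (n σ (a (nx i'))) (n σ w) =
            (grid R n).dft δ Y.1 (Pi.single (nx i') (a (nx i'))) (Pi.single j w)) ∧
        (j'.val * R + i'.val < l → η = 0) := by
      intro i' j'
      by_cases hz : ∀ j : Fin R, j'.val * R + i'.val + 1 = j.val * R + (nx i').val → ∀ w,
          (grid R n).dft δ Y.1 (Pi.single (nx i') (a (nx i'))) (Pi.single j w) = 0
      · exact ⟨0, by simp, by simp, by simp, by simp, by simp,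
          fun j hj w => by simp [hz j hj w], fun _ => rfl⟩
      · push Not at hz
        obtain ⟨j, hj, w0, hw0⟩ := hz
        have hv : a (nx i') ∉ Submodule.span F (Set.range fun p => as p (nx i')) := by
          intro hm
          apply hw0
          have : Submodule.span F (Set.range fun p => as p (nx i')) ≤ LinearMap.ker
              ((grid R n).dft δ Y.1 ∘ₗ LinearMap.single F (fun _ => U × U) (nx i')) := by
            rw [Submodule.span_le]
            rintro _ ⟨p, rfl⟩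
            exact hg p (nx i')
          have h2 : (grid R n).dft δ Y.1 (Pi.single (nx i') (a (nx i'))) = 0 := this hm
          rw [h2]; rfl
        obtain ⟨η, h1, h2, h3, h4, h5, h6⟩ := hn.key' hq hk (fun p => as p (nx i'))
          (fun p => as p i') (fun p => bs p j') (a i') _ hv
          ((grid R n).dft δ Y.1 (Pi.single (nx i') (a (nx i'))) ∘ₗ
            LinearMap.single F (fun _ => U × U) j)
        refine ⟨η, h1, h2, h3, h4, h5, fun j2 hj2 w => ?_, fun hlt => ?_⟩
        · have : j2 = j := by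
            apply Fin.ext
            have : j2.val * R = j.val * R := by omega
            exact Nat.eq_of_mul_eq_mul_right (Nat.pos_of_ne_zero (NeZero.ne R)) this
          rw [this]; exact h6 w
        · exfalso
          apply hw0
          rw [grid_dft, sum_pred n _ hj, (hl _ _ _ _ (by omega)).1, (hl _ _ _ _ (by omega)).2,
            Finset.sum_eq_zero fun σ _ => (hl _ _ _ _ (by omega)).1]
          simp
    choose η h1 h2 h3 h4 h5 h6 h7 using hη
    have hd : ∀ (i j : Fin R) v w, (grid R n).dft δ (Y.1 + glue η) (Pi.single i v)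
        (Pi.single j w) = (grid R n).dft δ Y.1 (Pi.single i v) (Pi.single j w) + η i j v w -
          ∑ σ, glue η (NN n σ (Pi.single i v)) (MM n σ (Pi.single j w)) := by
      intro i j v w
      simp only [grid_dft, LinearMap.add_apply, Finset.sum_add_distrib, glue_single]
      ring
    refine ⟨⟨Y.1 + glue η, ?_⟩, ?_, ?_, ?_, ?_, ?_⟩
    · rintro _ ⟨x, rfl⟩
      rw [LinearMap.add_apply, Y.2 _ ⟨x, rfl⟩, zero_add]
      refine LinearMap.ext fun b => ?_
      rw [glue_apply]
      refine Finset.sum_eq_zero fun i _ => Finset.sum_eq_zero fun j _ => ?_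
      rw [h4 i j]
      · rfl
      · by_cases hi : i = 0
        · subst hi; simp
        · simp [hi]
    · intro i j v w h
      refine ⟨?_, (hl i j v w (by omega)).2⟩
      simp only [LinearMap.add_apply, glue_single, (hl i j v w (by omega)).1, h7 i j h]
      simp
    · intro i
      refine LinearMap.pi_ext fun j w => ?_
      show (grid R n).dft δ (Y.1 + glue η) _ _ = 0
      rw [hd, h3]
      by_cases ht : j.val * R + i.val = 0
      · rw [sum_zero n _ i j ht, grid_dft, sum_zero n _ i j ht, (hl _ _ _ _ (by omega)).1,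
          (hl _ _ _ _ (by omega)).2]
        simp
      · obtain ⟨i', j', hp⟩ := exists_pred i j ht
        rw [sum_pred n _ hp]
        simp only [glue_single]
        have e := nx_eq hp
        subst e
        rw [h6 i' j' j hp]
        simp
    · intro p i
      refine LinearMap.pi_ext fun j w => ?_
      show (grid R n).dft δ (Y.1 + glue η) _ _ = 0
      rw [hd, h2, hg p i]
      by_cases ht : j.val * R + i.val = 0
      · rw [sum_zero n _ i j ht]
        simp
      · obtain ⟨i', j', hp⟩ := exists_pred i j ht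
        rw [sum_pred n _ hp]
        simp only [glue_single]
        have e := nx_eq hp
        subst e
        simp [h1]
    · intro p σ
      show Y.1 _ + glue η (NN n σ (as p)) = _
      rw [add_eq_left]
      refine LinearMap.ext fun b => ?_
      rw [glue_apply]
      refine Finset.sum_eq_zero fun i _ => Finset.sum_eq_zero fun j _ => ?_
      rcases NN_apply n σ (as p) i with h | h <;> rw [h]
      · simp
      · rw [h1]; rfl
    · intro p x
      show Y.1 _ _ + glue η x (bs p) = _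
      rw [add_eq_left, glue_apply]
      exact Finset.sum_eq_zero fun i _ => Finset.sum_eq_zero fun j _ => h5 i j _ p

end Pool.Agent.MP_45960e_lc

end

section

/-!
Choice of the parameters.
-/

namespace Pool.Agent.MP_45960e_lc

open Module Function

set_option synthInstance.maxHeartbeats 40000
set_option maxHeartbeats 800000
set_option linter.unusedSectionVars false

section
variable {U : Type} [AddCommGroup U] [Module F U] {s : ℕ} [NeZero (s + s)]

/-- The twists. -/
def tw (p : Fin s → U →ₗ[F] U →ₗ[F] F) :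
    (Fin (s + s) → U × U) →ₗ[F] (Fin (s + s) → U × U) →ₗ[F] F :=
  ∑ j, (p j).compl₁₂ (LinearMap.fst F U U ∘ₗ LinearMap.proj 0)
    (LinearMap.fst F U U ∘ₗ LinearMap.proj (Fin.natAdd s j))

theorem tw_apply (p : Fin s → U →ₗ[F] U →ₗ[F] F) (a b : Fin (s + s) → U × U) :
    tw p a b = ∑ j, p j (a 0).1 (b (Fin.natAdd s j)).1 := by
  simp [tw, LinearMap.sum_apply]

theorem tw_inj : Injective (tw (U := U) (s := s)) := by
  intro p p' h
  funext j
  refine LinearMap.ext fun x => LinearMap.ext fun y => ?_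
  have key : ∀ p : Fin s → U →ₗ[F] U →ₗ[F] F,
      tw p (Pi.single 0 (x, 0)) (Pi.single (Fin.natAdd s j) (y, 0)) = p j x y := by
    intro p
    rw [tw_apply, Finset.sum_eq_single j]
    · simp
    · intro b _ hb
      rw [Pi.single_eq_of_ne (i' := Fin.natAdd s b) (by simpa using hb)]
      simp
    · simp
  rw [← key p, ← key p', h]

theorem tw_low (p : Fin s → U →ₗ[F] U →ₗ[F] F) (i j : Fin (s + s)) (v w : U × U)
    (h : j.val * (s + s) + i.val < s * (s + s)) : tw p (Pi.single i v) (Pi.single j w) = 0 := by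
  have hj : j.val < s := by
    by_contra hj
    have := Nat.mul_le_mul_right (s + s) (not_lt.1 hj)
    omega
  rw [tw_apply]
  refine Finset.sum_eq_zero fun b _ => ?_
  rw [Pi.single_eq_of_ne (i' := Fin.natAdd s b) (by
    intro e
    rw [← e] at hj
    simp at hj)]
  simp

end

theorem card_dual (M : Type) [AddCommGroup M] [Module F M] [Module.Finite F M] :
    Nat.card (Dual F M) = Nat.card M := by
  rw [Module.natCard_eq_pow_finrank (K := F) (V := M),
    Module.natCard_eq_pow_finrank (K := F) (V := Dual F M), Subspace.dual_finrank_eq]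

theorem card_bil (m : ℕ) :
    Nat.card ((Fin m → F) →ₗ[F] (Fin m → F) →ₗ[F] F) = 3 ^ (m * m) := by
  rw [Nat.card_congr (LinearEquiv.piRing F ((Fin m → F) →ₗ[F] F) (Fin m) F).toEquiv,
    Nat.card_fun, card_dual]
  simp [pow_mul]

theorem card_bounds {A B S : Type} [AddCommGroup A] [Module F A] [AddCommGroup B] [Module F B]
    [Fintype S] [Finite A] [Finite B] (c : Chain A B S) (δ : A →ₗ[F] B →ₗ[F] F) (x : ℕ)
    (hA : Nat.card A = 3 ^ x) (hB : Nat.card B = 3 ^ x) :
    Fintype.card S + 2 ≤ Nat.card (c.G δ) ∧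
      Nat.card (c.G δ) ≤ 3 ^ (11 + 2 * Fintype.card S + (6 + Fintype.card S) * x) := by
  have : Finite (Dual F B) := Module.finite_of_finite F
  have : Finite (Dual F A) := Module.finite_of_finite F
  have hZ : Nat.card (ZZ A B S) = 3 ^ (3 + 2 * x + Fintype.card S) := by
    simp only [Nat.card_prod, Nat.card_fun, Nat.card_zmod, hA, hB, Finite.card_option,
      Nat.card_eq_fintype_card (α := S)]
    ring
  have hV : Nat.card (VV A B S) = 3 ^ (4 + 2 * x + Fintype.card S + Fintype.card S * x) := by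
    rw [Nat.card_prod, hZ, Nat.card_prod, Nat.card_fun, card_dual, hB, Nat.card_zmod,
      Nat.card_eq_fintype_card (α := S)]
    ring
  have hQ : Nat.card c.T.dualAnnihilator ≤ 3 ^ x := by
    rw [← hA, ← card_dual A]
    exact Nat.card_le_card_of_injective _ Subtype.val_injective
  have hW : Nat.card (WW B c.T) ≤ 3 ^ (2 + 2 * x) := by
    rw [Nat.card_prod, Nat.card_prod, Nat.card_prod, hB, Nat.card_zmod]
    calc 3 ^ x * (Nat.card c.T.dualAnnihilator * (3 * 3)) ≤ 3 ^ x * (3 ^ x * (3 * 3)) := by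
          gcongr
      _ = _ := by ring
  have hW' : 1 ≤ Nat.card (WW B c.T) := Nat.card_pos
  rw [Grp.card_eq, hV, hZ]
  constructor
  · have h1 : 3 + 2 * x + Fintype.card S < 3 ^ (3 + 2 * x + Fintype.card S) :=
      Nat.lt_pow_self (by norm_num)
    have h2 : 1 ≤ 3 ^ (4 + 2 * x + Fintype.card S + Fintype.card S * x) :=
      Nat.one_le_pow _ _ (by norm_num)
    calc Fintype.card S + 2 ≤ 4 * (1 * 3 ^ (3 + 2 * x + Fintype.card S) * 1) := by omega
      _ ≤ _ := by gcongr
  · calc _ ≤ 3 ^ 2 * (3 ^ (4 + 2 * x + Fintype.card S + Fintype.card S * x) *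
          3 ^ (3 + 2 * x + Fintype.card S) * 3 ^ (2 + 2 * x)) := by gcongr; norm_num
      _ = _ := by ring

theorem finite_G {A B S : Type} [AddCommGroup A] [Module F A] [AddCommGroup B] [Module F B]
    [Fintype S] [Finite A] [Finite B] (c : Chain A B S) (δ : A →ₗ[F] B →ₗ[F] F) :
    Finite (c.G δ) := by
  have : Finite (Dual F B) := Module.finite_of_finite F
  have : Finite (Dual F A) := Module.finite_of_finite F
  infer_instance

theorem exists_group (u : ℕ) : ∃ (G : Type) (_ : Group G) (_ : Finite G),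
    u + 2 ≤ Nat.card G ∧ (∃ r, Identifies 12 r G) ∧
      ∀ k < u, ∀ r, Identifies k r G → ((u : ℝ) + 1) * Real.log (Nat.card G) ≤ r := by
  obtain ⟨q, hq⟩ : ∃ q, q = 8 * u + 7 := ⟨_, rfl⟩
  obtain ⟨m, hm⟩ : ∃ m, m = 200 * (u + 1) ^ 2 * q := ⟨_, rfl⟩
  obtain ⟨s, hs⟩ : ∃ s, s = 100 * (u + 1) * q * m := ⟨_, rfl⟩
  have hq0 : 7 ≤ q := by omega
  have hmq : 200 * q ≤ m := by
    rw [hm]
    exact Nat.mul_le_mul_right _ (Nat.le_mul_of_pos_right _ (by positivity))
  have hm0 : 0 < m := by omega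
  have hs0 : 0 < s := by rw [hs]; positivity
  have : NeZero (s + s) := ⟨by omega⟩
  have : Nonempty (Fin m) := ⟨⟨0, hm0⟩⟩
  obtain ⟨n, hn⟩ := exists_expands (LinearMap.snd F (Fin m → F) (Fin m → F))
    Prod.snd_surjective q u (4 * u + 3) (by
      simp only [Nat.card_prod, Nat.card_fun, Nat.card_zmod, Nat.card_fin, ← pow_add, ← pow_mul]
      refine Nat.pow_lt_pow_right (by norm_num) ?_
      have : (4 * u + 4) * (q + q * u + u) < 2 * m := by
        rw [hm]
        have h1 : q + q * u + u ≤ 2 * (u + 1) * q := by nlinarith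
        calc (4 * u + 4) * (q + q * u + u) ≤ (4 * u + 4) * (2 * (u + 1) * q) := by gcongr
          _ = 8 * ((u + 1) ^ 2 * q) := by ring
          _ < 400 * ((u + 1) ^ 2 * q) := by
            have : 0 < (u + 1) ^ 2 * q := by positivity
            omega
          _ = _ := by ring
      nlinarith)
  have hX : Nat.card (Fin (s + s) → (Fin m → F) × (Fin m → F)) = 3 ^ (4 * m * s) := by
    simp only [Nat.card_prod, Nat.card_fun, Nat.card_zmod, Nat.card_fin, ← pow_add, ← pow_mul]
    congr 1; ring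
  have hS : Fintype.card (Bool × Fin q) = 2 * q := by simp
  have hb := fun δ => card_bounds (grid (s + s) n) δ _ hX hX
  rw [hS] at hb
  have hd : 11 + 2 * (2 * q) + (6 + 2 * q) * (4 * m * s) ≤ 20 * (q * m * s) := by
    have h1 : 1 ≤ m * s := Nat.mul_pos hm0 hs0
    nlinarith
  have hle : Nat.card ((grid (s + s) n).G 0) ≤ 3 ^ (20 * (q * m * s)) :=
    (hb 0).2.trans (Nat.pow_le_pow_right (by norm_num) hd)
  have hfin := finite_G (grid (s + s) n)
  have : Finite ((Fin m → F) →ₗ[F] F) := Module.finite_of_finite F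
  have : Finite ((Fin m → F) →ₗ[F] (Fin m → F) →ₗ[F] F) :=
    Finite.of_equiv _ (LinearEquiv.piRing F ((Fin m → F) →ₗ[F] F) (Fin m) F).toEquiv.symm
  obtain ⟨p, hp⟩ := (grid (s + s) n).exists_twist tw tw_inj (by
      intro p a
      refine LinearMap.ext fun b => ?_
      rw [tw_apply, tw_apply]
      refine Finset.sum_congr rfl fun j _ => ?_
      show p j (Pi.single (M := fun _ : Fin (s + s) => (Fin m → F) × (Fin m → F)) 0
        ((a 0).1, 0) 0).1 _ = _
      rw [Pi.single_eq_same]) (by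
      rw [Nat.card_fun, card_bil, Nat.card_fin, ← pow_mul]
      refine lt_of_le_of_lt (Nat.pow_le_pow_left hle 7) ?_
      rw [← pow_mul]
      refine Nat.pow_lt_pow_right (by norm_num) ?_
      have h1 : 1 ≤ m * s := Nat.mul_pos hm0 hs0
      nlinarith)
  refine ⟨(grid (s + s) n).G 0, inferInstance, inferInstance, le_trans (by omega) (hb 0).1,
    identifies_of_rigid (by simp) ((grid (s + s) n).rigid (δ := 0) (fun _ => rfl)), ?_⟩
  intro k hk r hr
  have hw := hr ((grid (s + s) n).G (tw p)) (by rw [Grp.card_eq, Grp.card_eq]) hp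
  have hnw := grid_not_wins (s + s) n hn (by omega) hk (tw p) (tw_low p)
  have hlt : s * (s + s) ≤ r := by
    by_contra h
    exact hnw (wins_mono (by omega) _ hw)
  have hpos : (0 : ℝ) < Nat.card ((grid (s + s) n).G 0) := by exact_mod_cast Nat.card_pos
  have hlog : Real.log (Nat.card ((grid (s + s) n).G 0)) ≤ (20 * (q * m * s) : ℕ) * 2 := by
    calc Real.log (Nat.card ((grid (s + s) n).G 0))
        ≤ Real.log ((3 : ℝ) ^ (20 * (q * m * s))) :=
          Real.log_le_log hpos (by exact_mod_cast hle)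
      _ = (20 * (q * m * s) : ℕ) * Real.log 3 := by rw [Real.log_pow]
      _ ≤ _ := by
          gcongr
          have := Real.log_le_sub_one_of_pos (show (0 : ℝ) < 3 by norm_num)
          linarith
  have hfn : (u + 1) * (20 * (q * m * s) * 2) ≤ r := by
    refine le_trans ?_ hlt
    have : s * (s + s) = 200 * ((u + 1) * (q * m * s)) := by
      nth_rewrite 2 3 [hs]
      ring
    rw [this]
    nlinarith
  calc ((u : ℝ) + 1) * Real.log (Nat.card ((grid (s + s) n).G 0))
      ≤ ((u : ℝ) + 1) * ((20 * (q * m * s) : ℕ) * 2) := by gcongr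
    _ = ((u + 1) * (20 * (q * m * s) * 2) : ℕ) := by push_cast; ring
    _ ≤ r := by exact_mod_cast hfn

end Pool.Agent.MP_45960e_lc

end
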